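import Mathlib

/-!
# Normal logic programs, stable models, and signed atom dependency graphs: definitions
-/

namespace Pool.Agent.R544.SM

/-- A ground normal rule `head ← pos, not neg`. -/
structure Rule (A : Type*) where
  /-- the head -/
  head : A
  /-- the positive body -/
  pos : Finset A
  /-- the negative body -/
  neg : Finset A

/-- A program is a set of rules (it is finite in the theorem). -/
abbrev Program (A : Type*) : Type _ := Set (Rule A)

variable {A : Type*}

/-- Every atom is the head of at most one rule. -/
def UniRule (P : Program A) : Prop := ∀ r ∈ P, ∀ r' ∈ P, r.head = r'.head → r = r'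

/-- `X` is a model of the reduct of `P` by `M`: the rules whose negative body meets `M` are
deleted, and the negative literals of the other rules are deleted. -/
def IsModelOfReduct (P : Program A) (M X : Set A) : Prop :=
  ∀ r ∈ P, (∀ b ∈ r.neg, b ∉ M) → (∀ a ∈ r.pos, a ∈ X) → r.head ∈ X

/-- `M` is a stable model of `P` (Gelfond-Lifschitz): it is the least model of the reduct of `P`
by `M`. -/
def IsStableModel (P : Program A) (M : Set A) : Prop := IsLeast {X | IsModelOfReduct P M X} M

/-- The signed arcs of the atom dependency graph: a positive arc (`s = true`) from `u` to `v` if `u`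
is in the positive body of a rule with head `v`, a negative arc (`s = false`) from `u` to `v` if `u`
is in the negative body of a rule with head `v`. -/
def Arc (P : Program A) (u v : A) (s : Bool) : Prop :=
  ∃ r ∈ P, r.head = v ∧ ((s = true ∧ u ∈ r.pos) ∨ (s = false ∧ u ∈ r.neg))

/-- An elementary directed cycle of the atom dependency graph: the vertices `vert 0, …, vert m` are
different, and for each `i` there is an arc from `vert i` to `vert (i + 1)` of sign `sign i` (the
indices are taken modulo `m + 1`). -/
structure Cycle (P : Program A) where
  /-- the number of arcs is `m + 1` -/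
  m : ℕ
  /-- the vertices -/
  vert : Fin (m + 1) → A
  /-- the signs of the arcs -/
  sign : Fin (m + 1) → Bool
  /-- the vertices are different -/
  inj : Function.Injective vert
  /-- consecutive vertices are joined by arcs with the given signs -/
  arc : ∀ i, Arc P (vert i) (vert (i + 1)) (sign i)

/-- The cycle has an odd number of negative arcs. -/
def Cycle.IsOdd {P : Program A} (C : Cycle P) : Prop :=
  Odd (Finset.univ.filter (fun i => C.sign i = false)).card

/-- The signed arc from `u` to `v` of sign `s` belongs to the cycle. -/
def Cycle.HasArc {P : Program A} (C : Cycle P) (u v : A) (s : Bool) : Prop :=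
  ∃ i, C.vert i = u ∧ C.vert (i + 1) = v ∧ C.sign i = s

/-- The cycle has an internal delocalizing triple `(u, v₁, v₂)`: all three are vertices of the
cycle, `v₁ ≠ v₂`, there are a positive arc from `u` to `v₁` and a negative arc from `u` to `v₂`, and
none of these two signed arcs belongs to the cycle. -/
def Cycle.HasInternalDelocalizingTriple {P : Program A} (C : Cycle P) : Prop :=
  ∃ u v₁ v₂ : A, u ∈ Set.range C.vert ∧ v₁ ∈ Set.range C.vert ∧ v₂ ∈ Set.range C.vert ∧ v₁ ≠ v₂ ∧
    Arc P u v₁ true ∧ Arc P u v₂ false ∧ ¬ C.HasArc u v₁ true ∧ ¬ C.HasArc u v₂ false

end Pool.Agent.R544.SM
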