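import Pool.Agent.R544.SM.Defs

/-!
# Uni-rule programs whose odd cycles have internal delocalizing triples have stable models
-/

set_option autoImplicit false

namespace Pool.Agent.R544.SM

/-! ### Ranks -/

/-- Repeatedly adding to `{u}` all members of `S` which are good with respect to the current set
reaches all of `S`, if no proper subset of `S` is closed. -/
theorem exists_rank {A : Type*} [DecidableEq A] (S : Finset A) (u : A) (hu : u ∈ S)
    (good : A → Finset A → Prop)
    (h : ∀ Z ⊆ S, u ∈ Z → Z ≠ S → ∃ v ∈ S, v ∉ Z ∧ good v Z) :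
    ∃ rk : A → ℕ, rk u = 0 ∧ ∀ v ∈ S, v ≠ u → ∃ Z ⊆ S, good v Z ∧ ∀ z ∈ Z, rk z < rk v := by
  classical
  let Z : ℕ → Finset A := fun n => Nat.rec {u} (fun _ Z => Z ∪ S.filter (fun v => good v Z)) n
  have hZ0 : Z 0 = {u} := rfl
  have hZs : ∀ n, Z (n + 1) = Z n ∪ S.filter (fun v => good v (Z n)) := fun n => rfl
  have hmono : ∀ n k, Z n ⊆ Z (n + k) := by
    intro n k
    induction k with
    | zero => exact subset_rfl
    | succ k ih =>
      rw [← add_assoc, hZs]
      exact ih.trans Finset.subset_union_left
  have hmono' : ∀ n k, n ≤ k → Z n ⊆ Z k := fun n k hnk => by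
    obtain ⟨d, rfl⟩ := Nat.exists_eq_add_of_le hnk
    exact hmono n d
  have hsub : ∀ n, Z n ⊆ S := by
    intro n
    induction n with
    | zero => rw [hZ0]; simpa using hu
    | succ n ih =>
      rw [hZs]
      exact Finset.union_subset ih (Finset.filter_subset _ _)
  have hall : ∀ v ∈ S, ∃ n, v ∈ Z n := by
    by_contra hne
    push Not at hne
    obtain ⟨v0, hv0, hv0'⟩ := hne
    -- a stage at which everything reachable is present
    have hN : ∃ N, ∀ v ∈ S, (∃ n, v ∈ Z n) → v ∈ Z N := by
      have : ∀ T : Finset A, T ⊆ S → ∃ N, ∀ v ∈ T, (∃ n, v ∈ Z n) → v ∈ Z N := by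
        intro T
        induction T using Finset.induction_on with
        | empty => intro _; exact ⟨0, by simp⟩
        | insert a T _ ih =>
          intro hT
          obtain ⟨N, hN⟩ := ih ((Finset.subset_insert _ _).trans hT)
          rcases Classical.em (∃ n, a ∈ Z n) with ha | ha
          · obtain ⟨n, hn⟩ := ha
            refine ⟨max n N, ?_⟩
            intro v hv hv'
            rcases Finset.mem_insert.1 hv with rfl | hv
            · exact hmono' n _ (le_max_left _ _) hn
            · exact hmono' N _ (le_max_right _ _) (hN v hv hv')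
          · refine ⟨N, ?_⟩
            intro v hv hv'
            rcases Finset.mem_insert.1 hv with rfl | hv
            · exact absurd hv' ha
            · exact hN v hv hv'
      exact this S subset_rfl
    obtain ⟨N, hN⟩ := hN
    obtain ⟨v, hv, hv1, hv2⟩ := h (Z N) (hsub N) (hmono' 0 N (Nat.zero_le _) (by simp [hZ0]))
      (fun he => hv0' N (he ▸ hv0))
    refine hv1 (hN v hv ⟨N + 1, ?_⟩)
    rw [hZs, Finset.mem_union, Finset.mem_filter]
    exact Or.inr ⟨hv, hv2⟩
  have hrk : ∀ v n, v ∈ Z n → sInf {n | v ∈ Z n} ≤ n := fun v n hv => Nat.sInf_le hv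
  refine ⟨fun v => sInf {n | v ∈ Z n}, ?_, ?_⟩
  · exact Nat.le_zero.1 (hrk u 0 (by simp [hZ0]))
  · intro v hv hvu
    have h2 : v ∈ Z (sInf {n | v ∈ Z n}) := Nat.sInf_mem (hall v hv)
    obtain ⟨n, hn⟩ : ∃ n, sInf {n | v ∈ Z n} = n + 1 := by
      refine Nat.exists_eq_succ_of_ne_zero fun h0 => ?_
      rw [h0, hZ0, Finset.mem_singleton] at h2
      exact hvu h2
    have h3 : v ∉ Z n := fun h => by
      have := hrk v n h
      omega
    rw [hn, hZs, Finset.mem_union, Finset.mem_filter] at h2
    refine ⟨Z n, hsub n, (h2.resolve_left h3).2, fun z hz => ?_⟩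
    have := hrk z n hz
    simp only
    omega

/-! ### Networks -/

section Network

variable {A : Type*} (p q : A → Finset A)

/-- The literal `z` (positive if `s = true`) occurs in the body of `v`. -/
def Lit (z v : A) (s : Bool) : Prop := (s = true ∧ z ∈ p v) ∨ (s = false ∧ z ∈ q v)

/-- The body of `v` is true. -/
def Body (x : A → Bool) (v : A) : Prop := ∀ z s, Lit p q z v s → x z = s

/-- The conclusion: some assignment with given values outside `S` is fixed on `S`. -/
def Solvable (S : Finset A) : Prop :=
  ∀ y : A → Bool, ∃ x : A → Bool, (∀ v ∉ S, x v = y v) ∧ ∀ v ∈ S, (x v = true ↔ Body p q x v)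

/-- The vertex `z` is the chosen parent of `v`, through a literal of sign `s`. -/
def Par (x : A → Bool) (rk : A → ℕ) (z v : A) (s : Bool) : Prop :=
  Lit p q z v s ∧ rk z < rk v ∧ (x v = true ↔ x z = s) ∧
    (x v = false → ∀ z' s', Lit p q z' v s' → x z' ≠ s' → rk z ≤ rk z' ∧ rk z' < rk v)

/-- The cycle condition on `S`: every cyclic sequence of different members of `S`, joined by
literals with an odd number of negative ones, has an internal delocalizing triple. -/
def CycCond (S : Finset A) : Prop :=
  ∀ (m : ℕ) (c : Fin (m + 1) → A) (sg : Fin (m + 1) → Bool), Function.Injective c →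
    (∀ i, c i ∈ S) → (∀ i, Lit p q (c i) (c (i + 1)) (sg i)) →
    Odd (Finset.univ.filter (fun i => sg i = false)).card →
    ∃ a b d : Fin (m + 1), c b ≠ c d ∧ Lit p q (c a) (c b) true ∧ Lit p q (c a) (c d) false ∧
      ¬ (b = a + 1 ∧ sg a = true) ∧ ¬ (d = a + 1 ∧ sg a = false)

variable {p q}

theorem CycCond.mono {S T : Finset A} (h : CycCond p q S) (hT : T ⊆ S) : CycCond p q T :=
  fun m c sg h1 h2 h3 h4 => h m c sg h1 (fun i => hT (h2 i)) h3 h4

/-- The paths of parents. -/
theorem exists_path {S : Finset A} {x : A → Bool} {rk : A → ℕ} {u : A} (hu : u ∈ S)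
    (hpar : ∀ v ∈ S, v ≠ u → ∃ z ∈ S, ∃ s, Par p q x rk z v s) :
    ∀ (n : ℕ) (w : A), w ∈ S → rk w ≤ n → ∃ (m : ℕ) (c : ℕ → A) (sg : ℕ → Bool),
      c 0 = u ∧ c m = w ∧ (∀ i ≤ m, c i ∈ S) ∧ ∀ i < m, Par p q x rk (c i) (c (i + 1)) (sg i) := by
  intro n
  induction n with
  | zero =>
    intro w hw hr
    by_cases hwu : w = u
    · exact ⟨0, fun _ => u, fun _ => true, rfl, hwu.symm, fun _ _ => hu, fun i hi => by omega⟩
    · obtain ⟨z, _, s, hz⟩ := hpar w hw hwu
      have := hz.2.1
      omega
  | succ n ih =>
    intro w hw hr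
    by_cases hwu : w = u
    · exact ⟨0, fun _ => u, fun _ => true, rfl, hwu.symm, fun _ _ => hu, fun i hi => by omega⟩
    · obtain ⟨z, hzS, s, hz⟩ := hpar w hw hwu
      obtain ⟨m, c, sg, h0, hm, hS, hc⟩ := ih z hzS (by have := hz.2.1; omega)
      refine ⟨m + 1, fun i => if i ≤ m then c i else w, fun i => if i < m then sg i else s,
        by simp [h0], by simp, ?_, ?_⟩
      · intro i _
        show (if i ≤ m then c i else w) ∈ S
        split_ifs with hi
        · exact hS i hi
        · exact hw
      · intro i hi
        by_cases him : i < m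
        · have e1 : i ≤ m := by omega
          have e2 : i + 1 ≤ m := by omega
          simp only [e1, e2, if_true, him]
          exact hc i him
        · have e1 : i = m := by omega
          subst e1
          simp only [le_refl, if_true, lt_irrefl, if_false]
          rw [hm]
          simpa using hz

theorem rk_mono {x : A → Bool} {rk : A → ℕ} {m : ℕ} {c : ℕ → A} {sg : ℕ → Bool}
    (hc : ∀ i < m, Par p q x rk (c i) (c (i + 1)) (sg i)) :
    ∀ j ≤ m, ∀ i < j, rk (c i) < rk (c j) := by
  intro j
  induction j with
  | zero => intro _ i hi; omega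
  | succ j ih =>
    intro hj i hi
    have h1 := (hc j (by omega)).2.1
    by_cases hij : i = j
    · rw [hij]; exact h1
    · exact (ih (by omega) i (by omega)).trans h1

/-- Parity of the number of negative signs along a path of parents. -/
theorem parity {x : A → Bool} {rk : A → ℕ} {m : ℕ} {c : ℕ → A} {sg : ℕ → Bool}
    (hc : ∀ i < m, Par p q x rk (c i) (c (i + 1)) (sg i)) (h0 : x (c 0) = false) :
    ∀ j ≤ m, (x (c j) = true ↔ Odd ((Finset.range j).filter (fun i => sg i = false)).card) := by
  intro j
  induction j with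
  | zero => simp [h0]
  | succ j ih =>
    intro hj
    have h1 := (hc j (by omega)).2.2.1
    have h2 := ih (by omega)
    rw [h1, Finset.range_add_one, Finset.filter_insert]
    cases hs : sg j with
    | true =>
      simp only [Bool.true_eq_false, if_false]
      exact h2
    | false =>
      simp only [if_true]
      rw [Finset.card_insert_of_notMem (by simp), Nat.odd_add_one, ← h2]
      cases x (c j) <;> simp

theorem solvable (S : Finset A) (hS : CycCond p q S) : Solvable p q S := by
  classical
  induction' hn : S.card using Nat.strong_induction_on with n IH generalizing S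
  intro y
  -- solving smaller sets
  have small : ∀ T ⊆ S, T ≠ S → Solvable p q T := fun T hT hne =>
    IH T.card (hn ▸ Finset.card_lt_card (hT.ssubset_of_ne hne)) T (hS.mono hT) rfl
  rcases S.eq_empty_or_nonempty with rfl | ⟨u, hu⟩
  · exact ⟨y, fun _ _ => rfl, by simp⟩
  -- force `u` to be false
  obtain ⟨x, hx1, hx2⟩ := small (S.erase u) (Finset.erase_subset _ _)
    (fun h => Finset.notMem_erase u S (by rw [h]; exact hu)) (Function.update y u false)
  have hxu : x u = false := by
    rw [hx1 u (Finset.notMem_erase u S)]; simp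
  have hxout : ∀ v ∉ S, x v = y v := by
    intro v hv
    rw [hx1 v (fun h => hv (Finset.mem_of_mem_erase h)), Function.update_of_ne]
    rintro rfl
    exact hv hu
  have hxS : ∀ v ∈ S, v ≠ u → (x v = true ↔ Body p q x v) := fun v hv hvu =>
    hx2 v (Finset.mem_erase.2 ⟨hvu, hv⟩)
  by_cases hbu : Body p q x u
  swap
  · refine ⟨x, hxout, fun v hv => ?_⟩
    by_cases hvu : v = u
    · subst hvu
      simp [hxu, hbu]
    · exact hxS v hv hvu
  -- the body of `u` is true
  by_cases hlit : ∃ w ∈ S, ∃ s, Lit p q w u s
  swap
  · -- all literals of `u` are outside of `S`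
    push Not at hlit
    obtain ⟨x', hx1', hx2'⟩ := small (S.erase u) (Finset.erase_subset _ _)
      (fun h => Finset.notMem_erase u S (by rw [h]; exact hu)) (Function.update y u true)
    have hxu' : x' u = true := by
      rw [hx1' u (Finset.notMem_erase u S)]; simp
    refine ⟨x', ?_, fun v hv => ?_⟩
    · intro v hv
      rw [hx1' v (fun h => hv (Finset.mem_of_mem_erase h)), Function.update_of_ne]
      rintro rfl
      exact hv hu
    · by_cases hvu : v = u
      · subst hvu
        rw [hxu']
        simp only [true_iff]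
        intro z s hz
        have hzS : z ∉ S := fun h => hlit z h s hz
        have h1 := hbu z s hz
        rw [hxout z hzS] at h1
        rw [hx1' z (fun h => hzS (Finset.mem_of_mem_erase h)), Function.update_of_ne, h1]
        rintro rfl
        exact hzS hu
      · exact hx2' v (Finset.mem_erase.2 ⟨hvu, hv⟩)
  -- partial fixed points
  let good : A → Finset A → Prop := fun v Z =>
    (x v = true ∧ ∃ z ∈ Z, ∃ s, Lit p q z v s) ∨
      (x v = false ∧ ∀ z s, Lit p q z v s → x z ≠ s → z ∈ Z)
  by_cases hZ : ∀ Z ⊆ S, u ∈ Z → Z ≠ S → ∃ v ∈ S, v ∉ Z ∧ good v Z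
  swap
  · push Not at hZ
    obtain ⟨Z, hZS, huZ, hne, hZ⟩ := hZ
    obtain ⟨x', hx1', hx2'⟩ := small Z hZS hne x
    refine ⟨x', ?_, fun v hv => ?_⟩
    · intro v hv
      rw [hx1' v (fun h => hv (hZS h)), hxout v hv]
    · by_cases hvZ : v ∈ Z
      · exact hx2' v hvZ
      · have hvu : v ≠ u := by rintro rfl; exact hvZ huZ
        have hg := hZ v hv hvZ
        simp only [good, not_or, not_and, not_exists, not_forall] at hg
        rw [hx1' v hvZ]
        cases hxv : x v with
        | true =>
          simp only [true_iff]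
          have hb := (hxS v hv hvu).1 hxv
          intro z s hz
          have hzZ : z ∉ Z := fun h => hg.1 hxv z h s hz
          rw [hx1' z hzZ]
          exact hb z s hz
        | false =>
          simp only [Bool.false_eq_true, false_iff]
          intro hb
          obtain ⟨z, s, hz, hzs, hzZ⟩ := hg.2 hxv
          have := hb z s hz
          rw [hx1' z hzZ] at this
          exact hzs this
  -- the contradiction
  exfalso
  obtain ⟨rk, hrk0, hrk⟩ := exists_rank S u hu good hZ
  have hpar : ∀ v ∈ S, v ≠ u → ∃ z ∈ S, ∃ s, Par p q x rk z v s := by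
    intro v hv hvu
    obtain ⟨Z, hZS, hg, hZr⟩ := hrk v hv hvu
    rcases hg with ⟨hxv, z, hz, s, hl⟩ | ⟨hxv, hall⟩
    · refine ⟨z, hZS hz, s, hl, hZr z hz, ?_, fun h => by rw [hxv] at h; simp at h⟩
      exact ⟨fun _ => (hxS v hv hvu).1 hxv z s hl, fun _ => hxv⟩
    · -- choose the violated literal of least rank
      have hex : ∃ n, ∃ z s, Lit p q z v s ∧ x z ≠ s ∧ rk z = n := by
        have hnb : ¬ Body p q x v := fun hb => by
          rw [(hxS v hv hvu).2 hb] at hxv
          simp at hxv
        unfold Body at hnb
        push Not at hnb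
        obtain ⟨z, s, h1, h2⟩ := hnb
        exact ⟨_, z, s, h1, h2, rfl⟩
      obtain ⟨z, s, h1, h2, h3⟩ := Nat.find_spec hex
      refine ⟨z, hZS (hall z s h1 h2), s, h1, hZr z (hall z s h1 h2), ?_, ?_⟩
      · rw [hxv]
        simp only [Bool.false_eq_true, false_iff]
        exact h2
      · intro _ z' s' h1' h2'
        rw [h3]
        exact ⟨Nat.find_min' hex ⟨z', s', h1', h2', rfl⟩, hZr z' (hall z' s' h1' h2')⟩
  obtain ⟨w, hwS, sw, hlw⟩ := hlit
  obtain ⟨m, c, sg, hc0, hcm, hcS, hc⟩ := exists_path hu hpar (rk w) w hwS le_rfl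
  have hmono := rk_mono hc
  have hinj : Function.Injective (fun i : Fin (m + 1) => c i) := by
    intro i j hij
    rcases lt_trichotomy i.val j.val with h | h | h
    · have := hmono j (by omega) i h
      simp only at hij
      rw [hij] at this
      omega
    · exact Fin.ext h
    · have := hmono i (by omega) j h
      simp only at hij
      rw [hij] at this
      omega
  have hxw : x w = sw := hbu w sw hlw
  have hsucc : ∀ i : Fin (m + 1), i.val < m → (i + 1).val = i.val + 1 := by
    intro i hi
    exact Fin.val_add_one_of_lt (Fin.lt_def.2 (by simpa using hi))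
  have hlast : ∀ i : Fin (m + 1), ¬ i.val < m → i = Fin.last m := by
    intro i hi
    exact Fin.ext (by simp; omega)
  obtain ⟨a, b, d, hbd, hla, hld, hnb, hnd⟩ := hS m (fun i => c i)
    (fun i => if i.val < m then sg i else sw) hinj (fun i => hcS i (by omega)) (by
      intro i
      by_cases hi : i.val < m
      · simp only [hi, if_true]
        rw [hsucc i hi]
        exact (hc i hi).1
      · rw [hlast i hi, Fin.last_add_one]
        simp only [Fin.val_last, lt_irrefl, if_false, Fin.val_zero, hc0, hcm]
        exact hlw) (by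
      have h1 := parity hc (by rw [hc0]; exact hxu) m le_rfl
      rw [hcm] at h1
      have h2 : (Finset.univ.filter (fun i : Fin (m + 1) =>
          (if i.val < m then sg i else sw) = false)).card =
          ((Finset.range (m + 1)).filter (fun i => (if i < m then sg i else sw) = false)).card := by
        rw [Finset.card_filter, Finset.card_filter]
        exact Fin.sum_univ_eq_sum_range
          (fun i => if (if i < m then sg i else sw) = false then 1 else 0) (m + 1)
      have h3 : (Finset.range m).filter (fun i => (if i < m then sg i else sw) = false) =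
          (Finset.range m).filter (fun i => sg i = false) := by
        refine Finset.filter_congr fun i hi => ?_
        rw [if_pos (Finset.mem_range.1 hi)]
      rw [h2, Finset.range_add_one, Finset.filter_insert, h3]
      cases hsw : sw with
      | true =>
        rw [hsw] at hxw
        simp only [lt_irrefl, if_false, Bool.true_eq_false]
        exact h1.1 hxw
      | false =>
        rw [hsw] at hxw
        simp only [lt_irrefl, if_false, if_true]
        rw [Finset.card_insert_of_notMem (by simp), Nat.odd_add_one, ← h1, hxw]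
        simp)
  -- the value of `x` at `c a`
  have key : ∀ (e : Fin (m + 1)) (s : Bool), Lit p q (c a) (c e) s → x (c a) ≠ s →
      e = a + 1 ∧ (if a.val < m then sg a else sw) = s := by
    intro e s hl hxs
    have he0 : e.val ≠ 0 := by
      intro h
      rw [h, hc0] at hl
      exact hxs (hbu _ _ hl)
    obtain ⟨k, hk⟩ := Nat.exists_eq_succ_of_ne_zero he0
    have hkm : k < m := by have := e.isLt; omega
    have hP := hc k hkm
    have hxe : x (c e) = false := by
      have hcu : c e ≠ u := by
        intro h
        rw [h] at hl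
        exact hxs (hbu _ _ hl)
      by_contra hne
      exact hxs ((hxS (c e) (hcS e (by omega)) hcu).1 (by simpa using hne) _ _ hl)
    rw [hk] at hxe hl
    obtain ⟨hle, hlt⟩ := hP.2.2.2 hxe _ _ hl hxs
    have hak : a.val = k := by
      rcases lt_trichotomy a.val k with h | h | h
      · have := hmono k (by omega) a.val h
        omega
      · exact h
      · have h' : a.val = k + 1 ∨ k + 1 < a.val := by omega
        rcases h' with h' | h'
        · rw [h'] at hlt
          exact absurd hlt (lt_irrefl _)
        · have := hmono a.val (by omega) (k + 1) h'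
          omega
    have ham : a.val < m := by omega
    refine ⟨Fin.ext ?_, ?_⟩
    · rw [hsucc a ham, hk, hak]
    · rw [if_pos ham]
      have h4 := hP.2.2.1
      rw [hxe, ← hak] at h4
      have h5 : x (c a) ≠ sg a := fun h => by simp [h] at h4
      revert h5 hxs
      cases x (c a) <;> cases sg a <;> cases s <;> simp
  cases hxa : x (c a) with
  | true =>
    have h1 := key d false hld (by rw [hxa]; simp)
    exact hnd h1
  | false =>
    have h1 := key b true hla (by rw [hxa]; simp)
    exact hnb h1

end Network

/-! ### Stable models -/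

section Stable

variable {A : Type*}

/-- The atoms whose positive support is well-founded. -/
inductive Hd (P : Program A) : A → Prop
  | mk (r : Rule A) (hr : r ∈ P) (h : ∀ a ∈ r.pos, Hd P a) : Hd P r.head

open Classical in
/-- The positive body of the rule of `v`. -/
noncomputable def pb (P : Program A) (v : A) : Finset A :=
  if h : ∃ r ∈ P, r.head = v then h.choose.pos else ∅

open Classical in
/-- The negative body of the rule of `v`. -/
noncomputable def nb (P : Program A) (v : A) : Finset A :=
  if h : ∃ r ∈ P, r.head = v then h.choose.neg else ∅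

theorem pb_eq {P : Program A} (hP : UniRule P) {r : Rule A} (hr : r ∈ P) :
    pb P r.head = r.pos := by
  have h : ∃ r' ∈ P, r'.head = r.head := ⟨r, hr, rfl⟩
  rw [pb, dif_pos h, hP _ h.choose_spec.1 r hr h.choose_spec.2]

theorem nb_eq {P : Program A} (hP : UniRule P) {r : Rule A} (hr : r ∈ P) :
    nb P r.head = r.neg := by
  have h : ∃ r' ∈ P, r'.head = r.head := ⟨r, hr, rfl⟩
  rw [nb, dif_pos h, hP _ h.choose_spec.1 r hr h.choose_spec.2]

theorem lit_of_arc {P : Program A} (hP : UniRule P) {u v : A} {s : Bool} (h : Arc P u v s) :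
    Lit (pb P) (nb P) u v s := by
  obtain ⟨r, hr, rfl, h⟩ := h
  rw [Lit, pb_eq hP hr, nb_eq hP hr]
  exact h

theorem arc_of_lit {P : Program A} {u v : A} {s : Bool} (h : Lit (pb P) (nb P) u v s) :
    Arc P u v s := by
  by_cases hv : ∃ r ∈ P, r.head = v
  · refine ⟨hv.choose, hv.choose_spec.1, hv.choose_spec.2, ?_⟩
    rw [Lit, pb, nb, dif_pos hv, dif_pos hv] at h
    exact h
  · rw [Lit, pb, nb, dif_neg hv, dif_neg hv] at h
    simp at h

/-- Every uni-rule program all of whose odd cycles have internal delocalizing triples has a stable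
model. -/
theorem exists_stable [Finite A] (P : Program A) (hP : UniRule P)
    (hC : ∀ C : Cycle P, C.IsOdd → C.HasInternalDelocalizingTriple) :
    ∃ M : Set A, IsStableModel P M := by
  classical
  have := Fintype.ofFinite A
  have hcyc : CycCond (pb P) (nb P) (Finset.univ.filter (fun v => Hd P v)) := by
    intro m c sg hinj _ hl hodd
    obtain ⟨u, v₁, v₂, ⟨a, rfl⟩, ⟨b, rfl⟩, ⟨d, rfl⟩, hne, h1, h2, h3, h4⟩ :=
      hC ⟨m, c, sg, hinj, fun i => arc_of_lit (hl i)⟩ hodd
    refine ⟨a, b, d, hne, lit_of_arc hP h1, lit_of_arc hP h2, ?_, ?_⟩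
    · rintro ⟨rfl, h⟩
      exact h3 ⟨a, rfl, rfl, h⟩
    · rintro ⟨rfl, h⟩
      exact h4 ⟨a, rfl, rfl, h⟩
  obtain ⟨x, hx1, hx2⟩ := solvable _ hcyc (fun _ => false)
  simp only [Finset.mem_filter, Finset.mem_univ, true_and] at hx1 hx2
  have hH : ∀ v, x v = true → Hd P v := by
    intro v hv
    by_contra hne
    rw [hx1 v hne] at hv
    simp at hv
  refine ⟨{v | x v = true}, ?_, ?_⟩
  · intro r hr hneg hpos
    have hh : Hd P r.head := Hd.mk r hr (fun a ha => hH a (hpos a ha))
    refine (hx2 _ hh).2 fun z s hz => ?_
    rw [Lit, pb_eq hP hr, nb_eq hP hr] at hz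
    rcases hz with ⟨rfl, hz⟩ | ⟨rfl, hz⟩
    · exact hpos z hz
    · have := hneg z hz
      simpa using this
  · intro X hX v hv
    have hmain : ∀ v, Hd P v → x v = true → v ∈ X := by
      intro v hv
      induction hv with
      | mk r hr h ih =>
        intro hxv
        have hb := (hx2 _ (Hd.mk r hr h)).1 hxv
        have hlp : ∀ z ∈ r.pos, x z = true := fun z hz =>
          hb z true (Or.inl ⟨rfl, by rw [pb_eq hP hr]; exact hz⟩)
        have hln : ∀ z ∈ r.neg, x z = false := fun z hz =>
          hb z false (Or.inr ⟨rfl, by rw [nb_eq hP hr]; exact hz⟩)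
        exact hX r hr (fun b hb' => by simp [hln b hb']) (fun a ha => ih a ha (hlp a ha))
    exact hmain v (hH v hv) hv

end Stable

end Pool.Agent.R544.SM
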